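import Pool.Agent.H65.NV.PTargets

/-! Row P_EMP of board nvk_modules (helper20): sums of smooth functions over an ideal with a
periodic weight. -/

namespace Pool.Agent.H20.NVP_EMP

open MeasureTheory Set Filter NumberField NumberField.InfinitePlace
open Pool.Agent.H65.CM4 Pool.Agent.H61.NVK Pool.Agent.H89.NV Pool.Agent.H65.NV
open scoped Real

variable (k : Type) [Field k] [NumberField k] [IsTotallyReal k]

theorem pf_EMP (hEMV : T_EMV k) (hEMS : T_EMS k) (hRSF : T_RSF k) (hLCU : T_LCU k)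
    (hEMB : T_EMB k) : T_EMP k := by
  classical
  intro m h hm hh
  obtain ⟨hcard, hdg0, hdk0, -⟩ := hEMB
  obtain ⟨hem, hem0, hem1, hemn, heminj, hemne, hspan, hmemle, hnmni, hnmtop, hnimem⟩ := hEMS
  obtain ⟨C, hC0, hC⟩ := hEMV m hm
  have hh0 : (0 : ℝ) < h := by exact_mod_cast hh
  refine ⟨C * (h : ℝ) ^ m, by positivity, ?_⟩
  intro Λ J W φ a β B L M hΛ hJ hB hL hsupp hDB hWM hWper
  generalize hR : ((Rs (J * Λ)).filter (fun x => x ∈ Λ)) = R
  have hRmem : ∀ x, x ∈ R ↔ x ∈ Rs (J * Λ) ∧ x ∈ Λ := by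
    intro x
    rw [← hR, Finset.mem_filter]
  obtain ⟨hrep, hRcard, -⟩ := hRSF J Λ hJ hΛ R hRmem
  have hJΛ : J * Λ ≠ ⊥ := mul_ne_zero hJ hΛ
  have hJΛle : ∀ y, y ∈ J * Λ → y ∈ Λ := fun y hy => Ideal.mul_le_right (I := J) (J := Λ) hy
  obtain ⟨I, hIdef⟩ : ∃ I : Ideal (𝓞 k), I = ni k h * (J * Λ) := ⟨_, rfl⟩
  have hhk : (h : 𝓞 k) ≠ 0 := by
    have : h ≠ 0 := by omega
    exact_mod_cast this
  have hI : I ≠ ⊥ := by
    rw [hIdef]
    refine mul_ne_zero ?_ hJΛ
    intro h0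
    rw [ni] at h0
    exact hhk (Ideal.span_singleton_eq_bot.1 h0)
  have hnmmul : ∀ I J : Ideal (𝓞 k), nm (I * J) = nm I * nm J := by
    intro I J
    rw [nm, nm, nm, map_mul]
    push_cast
    rfl
  have hnmI : nm I = (h : ℝ) ^ dg k * nm (J * Λ) := by
    rw [hIdef, hnmmul, hnmni]
  have hnmJ : 0 < nm J := by
    rw [nm]
    have : Ideal.absNorm J ≠ 0 := fun h0 => hJ (Ideal.absNorm_eq_zero_iff.1 h0)
    exact_mod_cast Nat.pos_of_ne_zero this
  have hnmΛ : 0 < nm Λ := by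
    rw [nm]
    have : Ideal.absNorm Λ ≠ 0 := fun h0 => hΛ (Ideal.absNorm_eq_zero_iff.1 h0)
    exact_mod_cast Nat.pos_of_ne_zero this
  have hM0 : 0 ≤ M := le_trans (abs_nonneg _) (hWM 0 Λ.zero_mem)
  -- the function
  obtain ⟨f, hf⟩ : ∃ f : 𝓞 k → ℝ, f = fun x => if x ∈ Λ then W x * φ ((h : ℝ) • em x + β)
    else 0 := ⟨_, rfl⟩
  have hfin : (Function.support f).Finite := by
    obtain ⟨h1, -⟩ := hLCU Λ (fun v => (a v - β v) / h) (B / h) hΛ (by positivity)
    refine h1.subset ?_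
    intro x hx
    rw [Function.mem_support, hf] at hx
    have hxΛ : x ∈ Λ := by
      by_contra hc
      exact hx (if_neg hc)
    refine ⟨hxΛ, fun v => ?_⟩
    simp only [if_pos hxΛ] at hx
    have h2 : φ ((h : ℝ) • em x + β) ≠ 0 := right_ne_zero_of_mul hx
    have h3 : |((h : ℝ) • em x + β) v - a v| ≤ B := by
      by_contra hc
      exact h2 (hsupp _ ⟨v, not_le.1 hc⟩)
    have h4 : em x v - (a v - β v) / h = (((h : ℝ) • em x + β) v - a v) / h := by
      rw [Pi.add_apply, Pi.smul_apply, smul_eq_mul]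
      field_simp
      ring
    rw [h4, abs_div, abs_of_pos hh0]
    exact div_le_div_of_nonneg_right h3 hh0.le
  have h1 : ∀ x, f x = ∑ r ∈ R, (if x - r ∈ J * Λ then f x else 0) := by
    intro x
    by_cases hx : x ∈ Λ
    · obtain ⟨r, ⟨hr1, hr2⟩, hr3⟩ := hrep x hx
      rw [Finset.sum_eq_single r, if_pos hr2]
      · intro s hs hsr
        rw [if_neg]
        intro hc
        exact hsr (hr3 s ⟨hs, hc⟩)
      · intro hc
        exact absurd hr1 hc
    · have h0 : f x = 0 := by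
        rw [hf]
        exact if_neg hx
      rw [h0]
      simp
  have h2 : ∑' x, f x = ∑ r ∈ R, ∑' x, (if x - r ∈ J * Λ then f x else 0) := by
    rw [tsum_congr h1]
    refine Summable.tsum_finsetSum (fun r _ => ?_)
    refine summable_of_hasFiniteSupport (hfin.subset ?_)
    intro x hx
    rw [Function.mem_support] at hx ⊢
    intro hc
    rw [hc] at hx
    simp at hx
  have hemh : ∀ y : 𝓞 k, em ((h : 𝓞 k) * y) = (h : ℝ) • em y := by
    intro y
    rw [(hem (h : 𝓞 k) y).2.1, hemn]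
    rfl
  have h3 : ∀ r ∈ R, ∑' x, (if x - r ∈ J * Λ then f x else 0) =
      W r * ∑' z : 𝓞 k, (if z ∈ I then φ (em z + ((h : ℝ) • em r + β)) else 0) := by
    intro r hr
    have hrΛ : r ∈ Λ := ((hRmem r).1 hr).2
    rw [← (Equiv.addRight r).tsum_eq (fun x => if x - r ∈ J * Λ then f x else 0)]
    have e1 : ∀ y : 𝓞 k, (if (Equiv.addRight r) y - r ∈ J * Λ then f ((Equiv.addRight r) y)
        else 0) = W r * (if y ∈ J * Λ then φ ((h : ℝ) • em y + ((h : ℝ) • em r + β)) else 0) := by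
      intro y
      rw [Equiv.coe_addRight, add_sub_cancel_right]
      by_cases hy : y ∈ J * Λ
      · rw [if_pos hy, if_pos hy, hf]
        have hy2 : y + r ∈ Λ := Λ.add_mem (hJΛle y hy) hrΛ
        simp only [if_pos hy2]
        rw [add_comm y r, hWper r hrΛ y hy, (hem r y).1, smul_add]
        congr 2
        abel
      · rw [if_neg hy, if_neg hy, mul_zero]
    rw [tsum_congr e1, tsum_mul_left]
    congr 1
    have hginj : Function.Injective (fun y : 𝓞 k => (h : 𝓞 k) * y) :=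
      mul_right_injective₀ hhk
    rw [← hginj.tsum_eq (f := fun z : 𝓞 k => if z ∈ I then φ (em z + ((h : ℝ) • em r + β)) else 0)]
    · refine tsum_congr fun y => ?_
      have hiff : (h : 𝓞 k) * y ∈ I ↔ y ∈ J * Λ := by
        rw [hIdef, hnimem]
        constructor
        · rintro ⟨y', hy', hyy⟩
          rw [hginj hyy]
          exact hy'
        · intro hy
          exact ⟨y, hy, rfl⟩
      by_cases hy : y ∈ J * Λ
      · rw [if_pos hy, if_pos (hiff.2 hy), hemh]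
      · rw [if_neg hy, if_neg (fun hc => hy (hiff.1 hc))]
    · intro z hz
      rw [Function.mem_support] at hz
      have hzI : z ∈ I := by
        by_contra hc
        exact hz (if_neg hc)
      rw [hIdef, hnimem] at hzI
      obtain ⟨y, -, hy⟩ := hzI
      exact ⟨y, hy.symm⟩
  obtain ⟨Mn, hMn⟩ : ∃ Mn : ℝ, Mn = (1 / (Real.sqrt (dk k) * nm I)) * ∫ u, φ u := ⟨_, rfl⟩
  obtain ⟨Er, hEr⟩ : ∃ Er : ℝ, Er = C * nm I ^ ((m : ℝ) / dg k) * (1 + B) ^ dg k * L := ⟨_, rfl⟩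
  have hEr0 : 0 ≤ Er := by
    rw [hEr]
    have : 0 < nm I := by
      rw [hnmI, hnmmul]
      positivity
    positivity
  have h4 : ∀ r ∈ R, |W r * ∑' z : 𝓞 k, (if z ∈ I then φ (em z + ((h : ℝ) • em r + β)) else 0) -
      W r * Mn| ≤ M * Er := by
    intro r hr
    rw [← mul_sub, abs_mul]
    refine mul_le_mul (hWM r ((hRmem r).1 hr).2) ?_ (abs_nonneg _) hM0
    rw [hMn, hEr]
    exact hC I φ a ((h : ℝ) • em r + β) B L hI hB hL hsupp hDB
  have h5 : (1 / (Real.sqrt (dk k) * (h : ℝ) ^ dg k * nm Λ)) * ((∑ x ∈ R, W x) / nm J) *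
      ∫ u, φ u = ∑ r ∈ R, W r * Mn := by
    rw [← Finset.sum_mul, hMn, hnmI, hnmmul]
    have hsq : 0 < Real.sqrt (dk k) := Real.sqrt_pos.2 (by exact_mod_cast hdk0)
    field_simp
  have hrp : nm I ^ ((m : ℝ) / dg k) = (h : ℝ) ^ m * nm (J * Λ) ^ ((m : ℝ) / dg k) := by
    have hd : (dg k : ℝ) ≠ 0 := by
      have : dg k ≠ 0 := by omega
      exact_mod_cast this
    have hJL0 : 0 ≤ nm (J * Λ) := by
      rw [hnmmul]
      positivity
    rw [hnmI, Real.mul_rpow (by positivity) hJL0]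
    congr 1
    rw [← Real.rpow_natCast, ← Real.rpow_mul hh0.le, mul_div_cancel₀ _ hd, Real.rpow_natCast]
  have hgoal : (∑' x : 𝓞 k, if x ∈ Λ then W x * φ ((h : ℝ) • em x + β) else 0) =
      ∑ r ∈ R, W r * ∑' z : 𝓞 k, (if z ∈ I then φ (em z + ((h : ℝ) • em r + β)) else 0) := by
    rw [← Finset.sum_congr rfl h3, ← h2, hf]
  rw [hgoal, h5, ← Finset.sum_sub_distrib]
  calc |∑ r ∈ R, (W r * (∑' z : 𝓞 k, if z ∈ I then φ (em z + ((h : ℝ) • em r + β)) else 0) -
        W r * Mn)| ≤ ∑ r ∈ R, |W r * (∑' z : 𝓞 k, if z ∈ I then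
          φ (em z + ((h : ℝ) • em r + β)) else 0) - W r * Mn| := Finset.abs_sum_le_sum_abs _ _
    _ ≤ ∑ _r ∈ R, M * Er := Finset.sum_le_sum h4
    _ = nm J * (M * Er) := by rw [Finset.sum_const, nsmul_eq_mul, hRcard]
    _ = C * (h : ℝ) ^ m * M * nm J * nm (J * Λ) ^ ((m : ℝ) / dg k) * (1 + B) ^ dg k * L := by
      rw [hEr, hrp]
      ring

end Pool.Agent.H20.NVP_EMP
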